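import Pool.Agent.Results.MP_86df06_gt.PolytopesNeverConvex
import Pool.Agent.Helper75.Near
import Pool.Agent.Helper65.PK.P.M1
import Pool.Agent.Helper65.PK.P.M2
import Pool.Agent.Helper65.PK.P.M3

/-!
The cone of `k`-content vectors of the convex bodies with finite edge content is not convex,
for every `d ≥ 3`.
-/

open MeasureTheory Module Set Filter Topology
open scoped ENNReal RealInnerProductSpace

namespace Pool.Agent.Results.MP_86df06_gt.BodiesNeverConvex

open PolytopesNeverConvex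

/-- The `k`-content `ζ_k(K)` of a set `K`: the infimum, over all sequences of `d`-polytopes tending
to `K` in the Hausdorff metric, of the lower limit of their `k`-contents. -/
noncomputable def contentBody {d : ℕ} (k : ℕ) (K : Set (EuclideanSpace ℝ (Fin d))) : ℝ≥0∞ :=
  sInf {c | ∃ P : ℕ → Set (EuclideanSpace ℝ (Fin d)), (∀ n, IsDPolytope (P n)) ∧
    Tendsto (fun n => Metric.hausdorffEDist (P n) K) atTop (𝓝 0) ∧
    c = liminf (fun n => content k (P n)) atTop}

/-- The class `𝒞₁ᵈ`: compact convex sets with nonempty interior and finite `1`-content. -/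
def InClass {d : ℕ} (K : Set (EuclideanSpace ℝ (Fin d))) : Prop :=
  IsCompact K ∧ Convex ℝ K ∧ (interior K).Nonempty ∧ contentBody 1 K < ⊤

/-- `x` is the `ζ`-vector of `K`: its `k`-th coordinate (index `i : Fin d`, `k = i + 1`) is the
`k`-th root of `ζ_k(K)`. -/
def IsZetaVec {d : ℕ} (K : Set (EuclideanSpace ℝ (Fin d))) (x : Fin d → ℝ) : Prop :=
  ∀ i : Fin d, 0 ≤ x i ∧
    ENNReal.ofReal (x i) = contentBody ((i : ℕ) + 1) K ^ (1 / (((i : ℕ) : ℝ) + 1))

theorem exists_poly_of_isDPolytope {d : ℕ} {P : Set (EuclideanSpace ℝ (Fin d))}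
    (hP : IsDPolytope P) : ∃ I : Finset (EuclideanSpace ℝ (Fin d) × ℝ),
      P = Helper75.poly I ∧ Bornology.IsBounded (Helper75.poly I) ∧
      (interior (Helper75.poly I)).Nonempty := by
  obtain ⟨⟨S, rfl⟩, hint⟩ := hP
  obtain ⟨I, hI⟩ := Helper75.exists_poly_of_convexHull hint
  refine ⟨I, hI, ?_, by rw [← hI]; exact hint⟩
  rw [← hI]
  exact (S.finite_toSet.isCompact_convexHull ℝ).isBounded

theorem contentBody_le_content {d k : ℕ} {P : Set (EuclideanSpace ℝ (Fin d))}
    (hP : IsDPolytope P) : contentBody k P ≤ content k P := by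
  apply sInf_le
  refine ⟨fun _ => P, fun _ => hP, ?_, ?_⟩
  · simp [Metric.hausdorffEDist_self]
  · simp

theorem exists_norm_lt_of_near {d : ℕ} {A B : Set (EuclideanSpace ℝ (Fin d))} {δ : ℝ}
    (h : Metric.hausdorffEDist A B < ENNReal.ofReal δ) {x : EuclideanSpace ℝ (Fin d)}
    (hx : x ∈ A) : ∃ y ∈ B, ‖x - y‖ < δ := by
  obtain ⟨y, hy, hxy⟩ := Metric.exists_edist_lt_of_hausdorffEDist_lt hx h
  refine ⟨y, hy, ?_⟩
  rw [edist_dist, ENNReal.ofReal_lt_ofReal_iff'] at hxy
  rw [← dist_eq_norm]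
  exact hxy.1

theorem le_contentBody_box {k d : ℕ} (σ : Fin k ↪ Fin d) {ℓ : Fin d → ℝ} (hℓ0 : ∀ i, 0 ≤ ℓ i)
    (hσ : ∀ i, ℓ (σ i) = 1) :
    ENNReal.ofReal ((1 / 2) ^ k) ≤ contentBody k (Helper75.poly (Helper75.boxI ℓ)) := by
  apply le_sInf
  rintro _ ⟨P, hP, hlim, rfl⟩
  apply le_liminf_of_le
  · isBoundedDefault
  have h1 : ∀ᶠ n in atTop, Metric.hausdorffEDist (P n) (Helper75.poly (Helper75.boxI ℓ)) <
      ENNReal.ofReal (1 / 8) := hlim.eventually_lt_const (by simp)
  filter_upwards [h1] with n hn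
  obtain ⟨I, hI, hbd, hint⟩ := exists_poly_of_isDPolytope (hP n)
  obtain ⟨C, hC⟩ := Metric.isBounded_iff.1 hbd
  rw [hI, content_poly]
  apply Helper75.zeta_ge_of_near_box σ hℓ0 hσ (D := C)
  · intro x hx y hy
    rw [← dist_eq_norm]; exact hC hx hy
  · intro x hx
    rw [Metric.hausdorffEDist_comm] at hn
    obtain ⟨y, hy, hxy⟩ := exists_norm_lt_of_near hn hx
    exact ⟨y, by rwa [hI] at hy, hxy.le⟩

/-- polytopes near `K` with one content not much larger and another not much smaller. -/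
theorem approx {d : ℕ} {K : Set (EuclideanSpace ℝ (Fin d))} {k k' : ℕ} {a b : ℝ≥0∞}
    (ha : a < contentBody k' K) (hb : contentBody k K < b) {δ : ℝ} (hδ : 0 < δ) :
    ∃ I : Finset (EuclideanSpace ℝ (Fin d) × ℝ), Bornology.IsBounded (Helper75.poly I) ∧
      (interior (Helper75.poly I)).Nonempty ∧
      Metric.hausdorffEDist (Helper75.poly I) K < ENNReal.ofReal δ ∧
      Helper75.zeta k (Helper75.poly I) < b ∧ a < Helper75.zeta k' (Helper75.poly I) := by
  obtain ⟨c, ⟨P, hP, hlim, rfl⟩, hc⟩ := sInf_lt_iff.1 hb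
  have h1 : ∃ᶠ n in atTop, content k (P n) < b := frequently_lt_of_liminf_lt (by isBoundedDefault) hc
  have h2 : ∀ᶠ n in atTop, a < content k' (P n) := by
    apply eventually_lt_of_lt_liminf (ha.trans_le _)
    exact sInf_le ⟨P, hP, hlim, rfl⟩
  have h3 : ∀ᶠ n in atTop, Metric.hausdorffEDist (P n) K < ENNReal.ofReal δ :=
    hlim.eventually_lt_const (by simpa using hδ)
  obtain ⟨n, hn1, hn2, hn3⟩ := (h1.and_eventually (h2.and h3)).exists
  obtain ⟨I, hI, hbd, hint⟩ := exists_poly_of_isDPolytope (hP n)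
  rw [hI] at hn1 hn2 hn3
  rw [content_poly] at hn1 hn2
  exact ⟨I, hbd, hint, hn3, hn1, hn2⟩

theorem contentBody_eq {d : ℕ} {K : Set (EuclideanSpace ℝ (Fin d))} {x : Fin d → ℝ}
    (hx : IsZetaVec K x) {k : ℕ} (hk : k < d) :
    contentBody (k + 1) K = ENNReal.ofReal (x ⟨k, hk⟩ ^ (k + 1)) := by
  obtain ⟨h0, h1⟩ := hx ⟨k, hk⟩
  simp only at h1
  rw [ENNReal.ofReal_pow h0, h1, ← ENNReal.rpow_natCast, ← ENNReal.rpow_mul]
  have : (1 / ((k : ℝ) + 1)) * ((k + 1 : ℕ) : ℝ) = 1 := by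
    push_cast
    field_simp
  rw [this, ENNReal.rpow_one]

/-- the `ζ`-vector of a polytope in the sense of bodies. -/
noncomputable def vecBody {d : ℕ} (K : Set (EuclideanSpace ℝ (Fin d))) : Fin d → ℝ :=
  fun i => (contentBody ((i : ℕ) + 1) K).toReal ^ (1 / (((i : ℕ) : ℝ) + 1))

theorem isZetaVec_vecBody {d : ℕ} {K : Set (EuclideanSpace ℝ (Fin d))}
    (h : ∀ k, contentBody k K ≠ ⊤) : IsZetaVec K (vecBody K) := by
  intro i
  refine ⟨Real.rpow_nonneg ENNReal.toReal_nonneg _, ?_⟩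
  unfold vecBody
  rw [← ENNReal.ofReal_rpow_of_nonneg ENNReal.toReal_nonneg (by positivity),
    ENNReal.ofReal_toReal (h _)]

theorem contentBody_box_ne_top {d : ℕ} {ℓ : Fin d → ℝ} (h0 : ∀ i, 0 < ℓ i) (h1 : ∀ i, ℓ i ≤ 1)
    (k : ℕ) : contentBody k (Helper75.poly (Helper75.boxI ℓ)) ≠ ⊤ := by
  refine ((contentBody_le_content (isDPolytope_box h0 h1)).trans_lt ?_).ne
  rw [content_poly]
  exact Helper75.zeta_lt_top _ _ (Helper75.box_diam h1)

theorem inClass_box {d : ℕ} {ℓ : Fin d → ℝ} (h0 : ∀ i, 0 < ℓ i) (h1 : ∀ i, ℓ i ≤ 1) :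
    InClass (Helper75.poly (Helper75.boxI ℓ)) :=
  ⟨Metric.isCompact_of_isClosed_isBounded (Helper75.isClosed_poly _)
    (Helper75.isBounded_of_norm_sub_le (Helper75.box_diam h1)), Helper75.convex_poly _,
    Helper75.interior_box_nonempty h0, (contentBody_box_ne_top h0 h1 1).lt_top⟩

theorem vecBody_le {d k : ℕ} (hk : k < d) {ℓ : Fin d → ℝ} (h0 : ∀ i, 0 < ℓ i)
    (h1 : ∀ i, ℓ i ≤ 1) : vecBody (Helper75.poly (Helper75.boxI ℓ)) ⟨k, hk⟩ ≤
      Helper75.X (k + 1) (Helper75.poly (Helper75.boxI ℓ)) := by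
  unfold vecBody Helper75.X
  rw [one_div]
  push_cast
  apply Real.rpow_le_rpow ENNReal.toReal_nonneg _ (by positivity)
  apply ENNReal.toReal_mono (Helper75.zeta_lt_top _ _ (Helper75.box_diam h1)).ne
  rw [← content_poly]
  exact contentBody_le_content (isDPolytope_box h0 h1)

theorem half_le_vecBody {d k : ℕ} (hk : k < d) (σ : Fin (k + 1) ↪ Fin d) {ℓ : Fin d → ℝ}
    (h0 : ∀ i, 0 < ℓ i) (h1 : ∀ i, ℓ i ≤ 1) (hσ : ∀ i, ℓ (σ i) = 1) :
    1 / 2 ≤ vecBody (Helper75.poly (Helper75.boxI ℓ)) ⟨k, hk⟩ := by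
  have h := ENNReal.toReal_mono (contentBody_box_ne_top h0 h1 (k + 1))
    (le_contentBody_box σ (fun i => (h0 i).le) hσ)
  rw [ENNReal.toReal_ofReal (by positivity)] at h
  have h2 := Real.rpow_le_rpow (by positivity) h (z := 1 / ((k : ℝ) + 1)) (by positivity)
  have h3 : (((1 : ℝ) / 2) ^ (k + 1)) ^ (1 / ((k : ℝ) + 1)) = 1 / 2 := by
    have := Real.pow_rpow_inv_natCast (x := 1 / 2) (n := k + 1) (by norm_num) (by omega)
    rw [one_div ((k : ℝ) + 1)]
    push_cast at this
    exact this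
  rw [h3] at h2
  exact h2

/-- The case `d ≥ 4`. -/
theorem result_four (d : ℕ) (hd : 4 ≤ d) :
    ¬ Convex ℝ {x : Fin d → ℝ |
      ∃ K : Set (EuclideanSpace ℝ (Fin d)), InClass K ∧ IsZetaVec K x} := by
  intro hconv
  obtain ⟨m, rfl⟩ : ∃ m, d = m + 4 := ⟨d - 4, by omega⟩
  -- constants
  set Q := Helper75.poly (Helper75.boxI fun _ : Fin (m + 4) => (1 : ℝ)) with hQ
  set b1 := Helper75.X (m + 1) Q with hb1
  set s := Helper75.X (m + 3) Q with hs
  have hb10 : 0 ≤ b1 := Helper75.X_nonneg _ _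
  have hs0 : 0 ≤ s := Helper75.X_nonneg _ _
  obtain ⟨a1, ha10, ha1⟩ : ∃ a1 : ℝ, 0 ≤ a1 ∧ ∀ ε : ℝ, 0 < ε → ε ≤ 1 →
      Helper75.X (m + 1) (Helper75.poly (Helper75.boxI (Helper75.thin m ε))) ≤ a1 := by
    set M : ℝ≥0∞ := 2 ^ (2 * (m + 4)) *
      (ENNReal.ofReal (((m + 4 : ℕ) : ℝ) ^ (m + 1)) * Helper75.kap (m + 1)) with hM
    have hMtop : M ≠ ⊤ := ENNReal.mul_ne_top (by finiteness)
      (ENNReal.mul_ne_top ENNReal.ofReal_ne_top (Helper75.kap_ne_top _))
    refine ⟨M.toReal ^ (((m + 1 : ℕ) : ℝ)⁻¹), Real.rpow_nonneg ENNReal.toReal_nonneg _, ?_⟩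
    intro ε hε hε1
    apply Real.rpow_le_rpow ENNReal.toReal_nonneg _ (by positivity)
    apply ENNReal.toReal_mono hMtop
    refine (Helper75.zeta_le_crude _ _ (Helper75.box_diam (Helper75.thin_le hε1))).trans ?_
    rw [hM]
    refine mul_le_mul_left ?_ _
    exact pow_le_pow_right₀ (by norm_num) (Helper75.card_boxI_le _)
  set κ := (volume (Metric.ball (0 : EuclideanSpace ℝ (Fin (m + 4))) 1)).toReal with hκ
  have hκ0 : 0 < κ :=
    ENNReal.toReal_pos (Metric.measure_ball_pos _ _ one_pos).ne'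
      Metric.isBounded_ball.measure_lt_top.ne
  set c := (Helper75.cst (EuclideanSpace ℝ (Fin (m + 4))) (m + 1)).toReal with hc
  have hc0 : 0 ≤ c := ENNReal.toReal_nonneg
  set K1 := 2 ^ (m + 6) * 4 ^ (m + 3) * (2 * (1 + s)) ^ ((m + 3) * (m + 3)) /
    ((1 / 4) ^ ((m + 4) * (m + 2)) * κ) with hK1
  have hK10 : 0 ≤ K1 := by positivity
  set G := (a1 + b1) ^ (m + 1) + 1 with hG
  have hG0 : 0 < G := by positivity
  have hcKG : 0 ≤ c * (K1 + 4) * G := by positivity
  set t := min (1 / 2 : ℝ) ((1 / 8) ^ (m + 2) / (c * (K1 + 4) * G + 1)) with ht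
  have ht0 : 0 < t := lt_min (by norm_num) (by positivity)
  have ht2 : t ≤ 1 / 2 := min_le_left _ _
  have htc : c * (K1 + 4) * G * t < (1 / 8) ^ (m + 2) := by
    have h1 : t ≤ (1 / 8) ^ (m + 2) / (c * (K1 + 4) * G + 1) := min_le_right _ _
    rw [le_div_iff₀ (by positivity)] at h1
    linarith only [ht0, h1]
  set B : ℝ := 2 ^ (2 * (m + 4)) * 3 ^ (m + 4) with hB
  have hB0 : 0 < B := by positivity
  set ε := min 1 (t ^ (m + 3) / B) with hε
  have hε0 : 0 < ε := lt_min one_pos (by positivity)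
  have hε1 : ε ≤ 1 := min_le_left _ _
  have hX3 : Helper75.X (m + 3) (Helper75.poly (Helper75.boxI (Helper75.thin m ε))) ≤ t := by
    apply Helper75.X_le_of_toReal_le (by omega) ht0.le
    have h1 := ENNReal.toReal_mono (by finiteness) (Helper75.zeta_thin_le (m := m) hε0 hε1)
    rw [ENNReal.toReal_mul, ENNReal.toReal_ofReal (by positivity), ENNReal.toReal_pow] at h1
    refine h1.trans ?_
    have h2 : ε ≤ t ^ (m + 3) / B := min_le_right _ _
    rw [le_div_iff₀ hB0] at h2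
    refine le_trans (le_of_eq ?_) h2
    rw [hB]
    simp only [ENNReal.toReal_ofNat]
    ring
  -- the two vectors
  set p := vecBody (Helper75.poly (Helper75.boxI (Helper75.thin m ε))) with hp
  set q := vecBody Q with hq
  have hpos1 : ∀ i : Fin (m + 4), (0 : ℝ) < (fun _ : Fin (m + 4) => (1 : ℝ)) i := fun _ => one_pos
  have hle1 : ∀ i : Fin (m + 4), (fun _ : Fin (m + 4) => (1 : ℝ)) i ≤ 1 := fun _ => le_rfl
  have hp0 : ∀ i, 0 ≤ p i := fun i => Real.rpow_nonneg ENNReal.toReal_nonneg _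
  have hq0 : ∀ i, 0 ≤ q i := fun i => Real.rpow_nonneg ENNReal.toReal_nonneg _
  obtain ⟨K, hK, hx⟩ := hconv
    (x := p) ⟨_, inClass_box (Helper75.thin_pos hε0) (Helper75.thin_le hε1),
      isZetaVec_vecBody (contentBody_box_ne_top (Helper75.thin_pos hε0) (Helper75.thin_le hε1))⟩
    (y := q) ⟨_, inClass_box hpos1 hle1, isZetaVec_vecBody (contentBody_box_ne_top hpos1 hle1)⟩
    (a := 1 - t) (b := t) (by linarith only [ht2]) ht0.le (by ring)
  have h1t : 0 ≤ 1 - t := by linarith only [ht2]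
  set x : Fin (m + 4) → ℝ := (1 - t) • p + t • q with hxdef
  have hxi : ∀ i, x i = (1 - t) * p i + t * q i := fun i => rfl
  -- coordinates
  have hxm : x ⟨m, by omega⟩ ≤ a1 + b1 := by
    rw [hxi]
    refine add_le_add ?_ ?_
    · exact (mul_le_of_le_one_left (hp0 _) (by linarith only [ht0])).trans
        ((vecBody_le _ (Helper75.thin_pos hε0) (Helper75.thin_le hε1)).trans (ha1 ε hε0 hε1))
    · exact (mul_le_of_le_one_left (hq0 _) (by linarith only [ht2])).trans
        (vecBody_le _ hpos1 hle1)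
  have hxm1 : 1 / 4 ≤ x ⟨m + 1, by omega⟩ := by
    rw [hxi]
    have h2 : 1 / 2 ≤ p ⟨m + 1, by omega⟩ := half_le_vecBody _
      (Fin.castLEEmb (by omega : m + 1 + 1 ≤ m + 4)) (Helper75.thin_pos hε0)
      (Helper75.thin_le hε1) (by intro i; simp [Helper75.thin])
    have h3 : (1 / 4 : ℝ) ≤ (1 - t) * p ⟨m + 1, by omega⟩ := by
      calc (1 / 4 : ℝ) = 1 / 2 * (1 / 2) := by norm_num
        _ ≤ (1 - t) * p ⟨m + 1, by omega⟩ :=
          mul_le_mul (by linarith only [ht2]) h2 (by norm_num) h1t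
    exact h3.trans (le_add_of_nonneg_right (mul_nonneg ht0.le (hq0 _)))
  have hxm2 : x ⟨m + 2, by omega⟩ ≤ t * (1 + s) := by
    rw [hxi, mul_add, mul_one]
    refine add_le_add ?_ ?_
    · exact (mul_le_of_le_one_left (hp0 _) (by linarith only [ht0])).trans
        ((vecBody_le _ (Helper75.thin_pos hε0) (Helper75.thin_le hε1)).trans hX3)
    · exact mul_le_mul_of_nonneg_left (vecBody_le _ hpos1 hle1) ht0.le
  have hxm3 : 1 / 2 * t ≤ x ⟨m + 3, by omega⟩ := by
    rw [hxi]
    have h2 : 1 / 2 ≤ q ⟨m + 3, by omega⟩ := half_le_vecBody _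
      (Fin.castLEEmb (by omega : m + 3 + 1 ≤ m + 4)) hpos1 hle1 (by intro i; rfl)
    have h3 : 1 / 2 * t ≤ t * q ⟨m + 3, by omega⟩ := by
      rw [mul_comm]
      exact mul_le_mul_of_nonneg_left h2 ht0.le
    exact h3.trans (le_add_of_nonneg_left (mul_nonneg h1t (hp0 _)))
  have hx0 : ∀ i, 0 ≤ x i := fun i => (hx i).1
  -- first approximation: the diameter
  have hc3 := contentBody_eq hx (k := m + 2) (by omega)
  have hc4 := contentBody_eq hx (k := m + 3) (by omega)
  obtain ⟨I, hbd, hint, hnear, hS, hV⟩ := approx (K := K) (k := m + 3) (k' := m + 4)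
    (a := ENNReal.ofReal ((1 / 4 * t) ^ (m + 4)))
    (b := ENNReal.ofReal ((t * (2 * (1 + s))) ^ (m + 3))) (by
      rw [hc4]
      apply (ENNReal.ofReal_lt_ofReal_iff (pow_pos (lt_of_lt_of_le (by positivity) hxm3) _)).2
      exact pow_lt_pow_left₀ (lt_of_lt_of_le (by linarith only [ht0]) hxm3) (by positivity)
        (by omega)) (by
      rw [hc3]
      apply (ENNReal.ofReal_lt_ofReal_iff (by positivity)).2
      refine pow_lt_pow_left₀ (lt_of_le_of_lt hxm2 ?_) (hx0 _) (by omega)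
      have : 0 < t * (1 + s) := by positivity
      linarith only [this]) ht0
  obtain ⟨C₀, hC₀⟩ := Metric.isBounded_iff.1 hbd
  have hD₀ : ∀ x ∈ Helper75.poly I, ∀ y ∈ Helper75.poly I, ‖x - y‖ ≤ C₀ := fun x hx y hy => by
    rw [← dist_eq_norm]; exact hC₀ hx hy
  have hdiamP := Helper75.diam_le_of_bounds hbd hint (t := t) (c := 1 / 4) (σ := 2 * (1 + s)) ht0
    (by norm_num) (by
      have := ENNReal.toReal_mono (Helper75.zeta_lt_top I (m + 4) hD₀).ne hV.le
      rwa [ENNReal.toReal_ofReal (by positivity)] at this) (by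
      have := ENNReal.toReal_mono ENNReal.ofReal_ne_top hS.le
      rwa [ENNReal.toReal_ofReal (by positivity)] at this)
  rw [← hκ, ← hK1] at hdiamP
  have hdiamK : ∀ y ∈ K, ∀ z ∈ K, ‖y - z‖ ≤ K1 * t + 2 * t := by
    intro y hy z hz
    rw [Metric.hausdorffEDist_comm] at hnear
    obtain ⟨y', hy', hyy⟩ := exists_norm_lt_of_near hnear hy
    obtain ⟨z', hz', hzz⟩ := exists_norm_lt_of_near hnear hz
    have h1 := hdiamP y' hy' z' hz'
    have h2 : y - z = (y - y') + (y' - z') - (z - z') := by abel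
    have h3 : ‖y - z‖ ≤ ‖y - y'‖ + ‖y' - z'‖ + ‖z - z'‖ := by
      rw [h2]
      exact (norm_sub_le _ _).trans (add_le_add (norm_add_le _ _) le_rfl)
    linarith only [h1, h3, hyy, hzz]
  -- second approximation: the codimension inequality
  have hc1 := contentBody_eq hx (k := m) (by omega)
  have hc2 := contentBody_eq hx (k := m + 1) (by omega)
  obtain ⟨J, hbdJ, hintJ, hnearJ, hL, hM⟩ := approx (K := K) (k := m + 1) (k' := m + 2)
    (a := ENNReal.ofReal ((1 / 8) ^ (m + 2))) (b := ENNReal.ofReal G) (by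
      rw [hc2]
      apply (ENNReal.ofReal_lt_ofReal_iff (pow_pos (lt_of_lt_of_le (by norm_num) hxm1) _)).2
      exact pow_lt_pow_left₀ (lt_of_lt_of_le (by norm_num) hxm1) (by norm_num) (by omega)) (by
      rw [hc1]
      apply (ENNReal.ofReal_lt_ofReal_iff hG0).2
      refine lt_of_le_of_lt (pow_le_pow_left₀ (hx0 _) hxm _) ?_
      rw [hG]
      linarith only) ht0
  have hdiamJ : ∀ y ∈ Helper75.poly J, ∀ z ∈ Helper75.poly J, ‖y - z‖ ≤ (K1 + 4) * t := by
    intro y hy z hz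
    obtain ⟨y', hy', hyy⟩ := exists_norm_lt_of_near hnearJ hy
    obtain ⟨z', hz', hzz⟩ := exists_norm_lt_of_near hnearJ hz
    have h1 := hdiamK y' hy' z' hz'
    have h2 : y - z = (y - y') + (y' - z') - (z - z') := by abel
    have h3 : ‖y - z‖ ≤ ‖y - y'‖ + ‖y' - z'‖ + ‖z - z'‖ := by
      rw [h2]
      exact (norm_sub_le _ _).trans (add_le_add (norm_add_le _ _) le_rfl)
    linarith only [h1, h3, hyy, hzz]
  have hfr : finrank ℝ (EuclideanSpace ℝ (Fin (m + 4))) = m + 4 := by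
    rw [finrank_euclideanSpace, Fintype.card_fin]
  have hcod := Helper75.codim_inequality (m + 1) J ((K1 + 4) * t) hdiamJ (by
    rw [Helper75.vectorSpan_eq_top_of_interior hintJ, finrank_top, hfr])
  have h5 := ENNReal.toReal_mono (ENNReal.mul_ne_top (ENNReal.mul_ne_top
    (Helper75.cst_ne_top _ _) ENNReal.ofReal_ne_top) (Helper75.zeta_lt_top J (m + 1) hdiamJ).ne)
    (hM.le.trans hcod)
  rw [ENNReal.toReal_mul, ENNReal.toReal_mul, ENNReal.toReal_ofReal (by positivity),
    ENNReal.toReal_ofReal (by positivity), ← hc] at h5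
  have h6 : (Helper75.zeta (m + 1) (Helper75.poly J)).toReal ≤ G := by
    have := ENNReal.toReal_mono ENNReal.ofReal_ne_top hL.le
    rwa [ENNReal.toReal_ofReal hG0.le] at this
  have h7 : c * ((K1 + 4) * t) * (Helper75.zeta (m + 1) (Helper75.poly J)).toReal ≤
      c * ((K1 + 4) * t) * G := mul_le_mul_of_nonneg_left h6 (by positivity)
  have h8 : c * ((K1 + 4) * t) * G = c * (K1 + 4) * G * t := by ring
  linarith only [h5, h7, h8, htc]


section Three

open Helper65.PK

/-- polytopes near `K` with one content not much larger and two others not much smaller. -/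
theorem approx3 {d : ℕ} {K : Set (EuclideanSpace ℝ (Fin d))} {k k' k'' : ℕ} {a a' b : ℝ≥0∞}
    (ha : a < contentBody k' K) (ha' : a' < contentBody k'' K) (hb : contentBody k K < b) {δ : ℝ}
    (hδ : 0 < δ) :
    ∃ I : Finset (EuclideanSpace ℝ (Fin d) × ℝ), Bornology.IsBounded (Helper75.poly I) ∧
      (interior (Helper75.poly I)).Nonempty ∧
      Metric.hausdorffEDist (Helper75.poly I) K < ENNReal.ofReal δ ∧
      Helper75.zeta k (Helper75.poly I) < b ∧ a < Helper75.zeta k' (Helper75.poly I) ∧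
      a' < Helper75.zeta k'' (Helper75.poly I) := by
  obtain ⟨c, ⟨P, hP, hlim, rfl⟩, hc⟩ := sInf_lt_iff.1 hb
  have h1 : ∃ᶠ n in atTop, content k (P n) < b := frequently_lt_of_liminf_lt (by isBoundedDefault) hc
  have h2 : ∀ᶠ n in atTop, a < content k' (P n) := by
    apply eventually_lt_of_lt_liminf (ha.trans_le _)
    exact sInf_le ⟨P, hP, hlim, rfl⟩
  have h2' : ∀ᶠ n in atTop, a' < content k'' (P n) := by
    apply eventually_lt_of_lt_liminf (ha'.trans_le _)
    exact sInf_le ⟨P, hP, hlim, rfl⟩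
  have h3 : ∀ᶠ n in atTop, Metric.hausdorffEDist (P n) K < ENNReal.ofReal δ :=
    hlim.eventually_lt_const (by simpa using hδ)
  obtain ⟨n, hn1, hn2, hn3, hn4⟩ := (h1.and_eventually (h2.and (h2'.and h3))).exists
  obtain ⟨I, hI, hbd, hint⟩ := exists_poly_of_isDPolytope (hP n)
  rw [hI] at hn1 hn2 hn3 hn4
  rw [content_poly] at hn1 hn2 hn3
  exact ⟨I, hbd, hint, hn4, hn1, hn2, hn3⟩

theorem closedBall_subset_homothety {Q : Set E3} {c : E3} {r t : ℝ} (ht : 0 < t)
    (hc : Metric.closedBall c r ⊆ Q) :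
    Metric.closedBall c (t * r) ⊆ AffineMap.homothety c t '' Q := by
  intro y hy
  rw [Metric.mem_closedBall, dist_eq_norm] at hy
  refine ⟨c + t⁻¹ • (y - c), hc ?_, ?_⟩
  · rw [Metric.mem_closedBall, dist_eq_norm, add_sub_cancel_left, norm_smul, norm_inv,
      Real.norm_eq_abs, abs_of_pos ht, inv_mul_le_iff₀ ht]
    exact hy
  · rw [AffineMap.homothety_apply]
    simp only [vsub_eq_sub, vadd_eq_add, add_sub_cancel_left, smul_smul]
    rw [mul_inv_cancel₀ ht.ne', one_smul]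
    abel

theorem exists_closedBall {Q : Set E3} (h : (interior Q).Nonempty) :
    ∃ c : E3, ∃ r : ℝ, 0 < r ∧ Metric.closedBall c r ⊆ Q := by
  obtain ⟨c, hc⟩ := h
  rw [mem_interior_iff_mem_nhds, Metric.mem_nhds_iff] at hc
  obtain ⟨r, hr, h⟩ := hc
  exact ⟨c, r / 2, by positivity, (Metric.closedBall_subset_ball (by linarith)).trans h⟩

/-- comparison of the contents of two nearby polytopes. -/
theorem compare {I J : Finset (E3 × ℝ)} (hJ : Bornology.IsBounded (Helper75.poly J))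
    {c : E3} {r δ t : ℝ} (hr : 0 < r) (hc : Metric.closedBall c r ⊆ Helper75.poly I) (h0 : 0 < t)
    (h1 : t < 1) (hδ : δ < (1 - t) * r)
    (hnear : ∀ x ∈ Helper75.poly I, ∃ b ∈ Helper75.poly J, ‖x - b‖ ≤ δ) :
    ENNReal.ofReal (t ^ 2) * Helper75.zeta 2 (Helper75.poly I) ≤
      Helper75.zeta 2 (Helper75.poly J) ∧
    ENNReal.ofReal (t ^ 3) * Helper75.zeta 3 (Helper75.poly I) ≤
      Helper75.zeta 3 (Helper75.poly J) := by
  have hsub := homothety_subset (Helper75.convex_poly I) (Helper75.convex_poly J)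
    (Helper75.isClosed_poly J) hc h0.le h1 hδ hnear
  obtain ⟨I', hI'⟩ := exists_poly_homothety I c h0
  have hint' : (interior (Helper75.poly I')).Nonempty := by
    rw [hI']
    refine ⟨c, ?_⟩
    rw [mem_interior_iff_mem_nhds]
    exact Filter.mem_of_superset (Metric.closedBall_mem_nhds c (by positivity))
      (closedBall_subset_homothety h0 hc)
  have hintJ : (interior (Helper75.poly J)).Nonempty :=
    hint'.mono (interior_mono (by rw [hI']; exact hsub))
  rw [← zeta_homothety 2 I c h0, ← zeta_homothety 3 I c h0, ← hI']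
  refine ⟨zeta_two_mono hint' hJ (by rw [hI']; exact hsub), ?_⟩
  have e1 := Helper75.zeta_top I' hint'
  have e2 := Helper75.zeta_top J hintJ
  rw [finrank_euclideanSpace, Fintype.card_fin] at e1 e2
  rw [e1, e2]
  exact measure_mono (by rw [hI']; exact hsub)

theorem le_of_forall_lt_one {k : ℕ} {Z L : ℝ≥0∞}
    (h : ∀ t : ℝ, 0 < t → t < 1 → ENNReal.ofReal (t ^ k) * Z ≤ L) : Z ≤ L := by
  rcases eq_or_ne Z ⊤ with hZ | hZ
  · have := h (1 / 2) (by norm_num) (by norm_num)
    rw [hZ, ENNReal.mul_top (by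
      rw [Ne, ENNReal.ofReal_eq_zero]
      push Not
      positivity)] at this
    exact le_trans le_top this
  have h1 : Tendsto (fun t : ℝ => ENNReal.ofReal (t ^ k) * Z) (𝓝[<] 1) (𝓝 (1 * Z)) := by
    refine Tendsto.mono_left ?_ nhdsWithin_le_nhds
    refine ENNReal.Tendsto.mul_const ?_ (Or.inr hZ)
    have : Tendsto (fun t : ℝ => ENNReal.ofReal (t ^ k)) (𝓝 1) (𝓝 (ENNReal.ofReal (1 ^ k))) :=
      (ENNReal.continuous_ofReal.comp (continuous_pow k)).tendsto 1
    simpa using this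
  rw [one_mul] at h1
  refine le_of_tendsto h1 ?_
  have h2 : Ioo (0 : ℝ) 1 ∈ 𝓝[<] (1 : ℝ) := Ioo_mem_nhdsLT (by norm_num)
  filter_upwards [h2] with t ht
  exact h t ht.1 ht.2

/-- lower semicontinuity at a polytope. -/
theorem zeta_le_contentBody {J : Finset (E3 × ℝ)} (hint : (interior (Helper75.poly J)).Nonempty) :
    Helper75.zeta 2 (Helper75.poly J) ≤ contentBody 2 (Helper75.poly J) ∧
    Helper75.zeta 3 (Helper75.poly J) ≤ contentBody 3 (Helper75.poly J) := by
  obtain ⟨c, r, hr, hc⟩ := exists_closedBall hint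
  have key : ∀ t : ℝ, 0 < t → t < 1 → ∀ P : ℕ → Set E3, (∀ n, IsDPolytope (P n)) →
      Tendsto (fun n => Metric.hausdorffEDist (P n) (Helper75.poly J)) atTop (𝓝 0) →
      ∀ᶠ n in atTop, ENNReal.ofReal (t ^ 2) * Helper75.zeta 2 (Helper75.poly J) ≤
        content 2 (P n) ∧ ENNReal.ofReal (t ^ 3) * Helper75.zeta 3 (Helper75.poly J) ≤
        content 3 (P n) := by
    intro t h0 h1 P hP hlim
    have hδ : 0 < (1 - t) * r / 2 := by
      have : 0 < 1 - t := by linarith
      positivity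
    have h3 : ∀ᶠ n in atTop, Metric.hausdorffEDist (P n) (Helper75.poly J) <
        ENNReal.ofReal ((1 - t) * r / 2) := hlim.eventually_lt_const (by simpa using hδ)
    filter_upwards [h3] with n hn
    obtain ⟨I, hI, hbd, -⟩ := exists_poly_of_isDPolytope (hP n)
    rw [hI] at hn ⊢
    rw [content_poly, content_poly]
    apply compare hbd hr hc h0 h1 (δ := (1 - t) * r / 2) (by linarith)
    intro x hx
    rw [Metric.hausdorffEDist_comm] at hn
    obtain ⟨y, hy, hxy⟩ := exists_norm_lt_of_near hn hx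
    exact ⟨y, hy, hxy.le⟩
  constructor
  · apply le_sInf
    rintro _ ⟨P, hP, hlim, rfl⟩
    apply le_of_forall_lt_one (k := 2)
    intro t h0 h1
    apply le_liminf_of_le
    · isBoundedDefault
    · exact (key t h0 h1 P hP hlim).mono fun n hn => hn.1
  · apply le_sInf
    rintro _ ⟨P, hP, hlim, rfl⟩
    apply le_of_forall_lt_one (k := 3)
    intro t h0 h1
    apply le_liminf_of_le
    · isBoundedDefault
    · exact (key t h0 h1 P hP hlim).mono fun n hn => hn.2

/-- upper semicontinuity of the surface area. -/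
theorem surface_upper {K : Set E3}
    (hint : (interior K).Nonempty) {b : ℝ} (hb : contentBody 2 K < ENNReal.ofReal b) :
    ∃ δ : ℝ, 0 < δ ∧ ∀ I : Finset (E3 × ℝ), Bornology.IsBounded (Helper75.poly I) →
      Metric.hausdorffEDist (Helper75.poly I) K < ENNReal.ofReal δ →
      Helper75.zeta 2 (Helper75.poly I) ≤ ENNReal.ofReal b := by
  obtain ⟨b', hb1, hb2⟩ := exists_between hb
  have hb'top : b' ≠ ⊤ := (hb2.trans ENNReal.ofReal_lt_top).ne
  have hb0 : 0 < b := by
    by_contra h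
    rw [ENNReal.ofReal_of_nonpos (not_lt.1 h)] at hb
    exact not_lt_zero hb
  -- the factor
  obtain ⟨t, ht0, ht1, ht⟩ : ∃ t : ℝ, 0 < t ∧ t < 1 ∧ b'.toReal ≤ t ^ 2 * b := by
    have h1 : b'.toReal < b := by
      rw [← ENNReal.toReal_ofReal hb0.le]
      exact (ENNReal.toReal_lt_toReal hb'top ENNReal.ofReal_ne_top).2 hb2
    have h2 : Tendsto (fun t : ℝ => t ^ 2 * b) (𝓝[<] 1) (𝓝 (1 ^ 2 * b)) :=
      (((continuous_pow 2).mul continuous_const).tendsto 1).mono_left nhdsWithin_le_nhds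
    rw [one_pow, one_mul] at h2
    have h3 : Ioo (0 : ℝ) 1 ∈ 𝓝[<] (1 : ℝ) := Ioo_mem_nhdsLT (by norm_num)
    obtain ⟨t, ht, ht'⟩ := ((h2.eventually_const_lt h1).and h3).exists
    exact ⟨t, ht'.1, ht'.2, ht.le⟩
  obtain ⟨c, r, hr, hc⟩ := exists_closedBall hint
  have h1t : 0 < 1 - t := by linarith
  set δ : ℝ := min (r / 4) ((1 - t) * (r / 2) / 4) with hδ
  have hδ0 : 0 < δ := lt_min (by positivity) (by positivity)
  refine ⟨δ, hδ0, fun I hI hnear => ?_⟩
  -- a nearly optimal polytope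
  obtain ⟨e, ⟨P, hP, hlim, rfl⟩, he⟩ := sInf_lt_iff.1 hb1
  have h1 : ∃ᶠ n in atTop, content 2 (P n) < b' := frequently_lt_of_liminf_lt (by isBoundedDefault) he
  have h3 : ∀ᶠ n in atTop, Metric.hausdorffEDist (P n) K < ENNReal.ofReal δ :=
    hlim.eventually_lt_const (by simpa using hδ0)
  obtain ⟨n, hn1, hn2⟩ := (h1.and_eventually h3).exists
  obtain ⟨J, hJ, hbd, -⟩ := exists_poly_of_isDPolytope (hP n)
  rw [hJ] at hn1 hn2
  rw [content_poly] at hn1
  have hball : Metric.closedBall c (r / 2) ⊆ Helper75.poly I := by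
    intro y hy
    rw [Metric.mem_closedBall, dist_eq_norm] at hy
    apply Helper75.mem_of_ball_near (Helper75.convex_poly I) (Helper75.isClosed_poly I)
      (r := r / 2) (δ := δ) (by positivity)
    · have := min_le_left (r / 4) ((1 - t) * (r / 2) / 4)
      rw [← hδ] at this
      linarith only [hδ0, this]
    · intro z hz
      have hzK : z ∈ K := by
        apply hc
        rw [Metric.mem_closedBall, dist_eq_norm]
        calc ‖z - c‖ = ‖(z - y) + (y - c)‖ := by rw [sub_add_sub_cancel]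
          _ ≤ r / 2 + r / 2 := (norm_add_le _ _).trans (add_le_add hz hy)
          _ = r := by ring
      rw [Metric.hausdorffEDist_comm] at hnear
      obtain ⟨w, hw, hzw⟩ := exists_norm_lt_of_near hnear hzK
      exact ⟨w, hw, hzw.le⟩
  have hcomp := (compare (I := I) (J := J) hbd (δ := δ + δ) (by positivity : (0 : ℝ) < r / 2) hball
    ht0 ht1 (by
      have := min_le_right (r / 4) ((1 - t) * (r / 2) / 4)
      rw [← hδ] at this
      have h5 : 0 < (1 - t) * (r / 2) := by positivity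
      linarith only [hδ0, this]) (by
      intro x hx
      obtain ⟨y, hy, hxy⟩ := exists_norm_lt_of_near hnear hx
      rw [Metric.hausdorffEDist_comm] at hn2
      obtain ⟨z, hz, hyz⟩ := exists_norm_lt_of_near hn2 hy
      refine ⟨z, hz, ?_⟩
      calc ‖x - z‖ = ‖(x - y) + (y - z)‖ := by rw [sub_add_sub_cancel]
        _ ≤ δ + δ := (norm_add_le _ _).trans (add_le_add hxy.le hyz.le))).1
  have h6 : ENNReal.ofReal (t ^ 2) * Helper75.zeta 2 (Helper75.poly I) ≤
      ENNReal.ofReal (t ^ 2) * ENNReal.ofReal b := by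
    refine hcomp.trans (hn1.le.trans ?_)
    rw [← ENNReal.ofReal_mul (by positivity), ← ENNReal.ofReal_toReal hb'top]
    exact ENNReal.ofReal_le_ofReal ht
  exact (ENNReal.mul_le_mul_iff_right (by
    rw [Ne, ENNReal.ofReal_eq_zero]; push Not; positivity) ENNReal.ofReal_ne_top).1 h6

theorem PP_poly {ι : Type} [Fintype ι] {u : ι → E3} {h : ι → ℝ} (R : Rep u h) :
    ∃ J : Finset (E3 × ℝ), PP u h = Helper75.poly J ∧ Bornology.IsBounded (Helper75.poly J) ∧
      (interior (Helper75.poly J)).Nonempty := by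
  classical
  have h1 := R.bdd
  have h2 := R.int
  rw [PP_eq_poly] at h1 h2
  exact ⟨_, PP_eq_poly u h, h1, h2⟩

theorem contentBody_PP {ι : Type} [Fintype ι] {u : ι → E3} {h : ι → ℝ} (R : Rep u h) :
    contentBody 1 (PP u h) ≤ Helper75.zeta 1 (PP u h) ∧
    contentBody 2 (PP u h) = Helper75.zeta 2 (PP u h) ∧
    contentBody 3 (PP u h) = Helper75.zeta 3 (PP u h) := by
  have hD := isDPolytope_PP R
  obtain ⟨J, hJ, hb, hint⟩ := PP_poly R
  have hc : ∀ k, contentBody k (PP u h) ≤ Helper75.zeta k (PP u h) := by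
    intro k
    have := contentBody_le_content (k := k) hD
    rwa [hJ, content_poly, ← hJ] at this
  obtain ⟨h2, h3⟩ := zeta_le_contentBody hint
  rw [← hJ] at h2 h3
  exact ⟨hc 1, le_antisymm (hc 2) h2, le_antisymm (hc 3) h3⟩

theorem inClass_PP {ι : Type} [Fintype ι] [DecidableEq ι] {u : ι → E3} {h : ι → ℝ}
    (R : Rep u h) : InClass (PP u h) :=
  ⟨isCompact_PP R.bdd, convex_PP u h, R.int,
    (contentBody_PP R).1.trans_lt (R.zeta_lt_top 1)⟩

theorem isZetaVec_PP {ι : Type} [Fintype ι] [DecidableEq ι] {u : ι → E3} {h : ι → ℝ}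
    (R : Rep u h) : IsZetaVec (PP u h) (vecBody (PP u h)) := by
  apply isZetaVec_vecBody
  intro k
  have := contentBody_le_content (k := k) (isDPolytope_PP R)
  obtain ⟨J, hJ, -, -⟩ := PP_poly R
  rw [hJ, content_poly, ← hJ] at this
  exact (this.trans_lt (R.zeta_lt_top k)).ne

theorem vecBody_pow {K : Set E3} {k : ℕ} (hk : k < 3) :
    vecBody K ⟨k, hk⟩ ^ (k + 1) = (contentBody (k + 1) K).toReal := by
  unfold vecBody
  have := Real.rpow_inv_natCast_pow (x := (contentBody (k + 1) K).toReal) ENNReal.toReal_nonneg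
    (n := k + 1) (by omega)
  rw [one_div]
  push_cast at this
  exact this

theorem vecBody_nonneg (K : Set E3) (i : Fin 3) : 0 ≤ vecBody K i :=
  Real.rpow_nonneg ENNReal.toReal_nonneg _

/-- the numerical bounds. -/
theorem numeric2 {c1 c2 c3 p1 p2 p3 x1 x2 x3 : ℝ} (hc1 : c1 ≤ 12) (hc2 : c2 ^ 2 = 6)
    (hc20 : 0 ≤ c2) (hc3 : c3 ^ 3 = 1) (hc30 : 0 ≤ c3) (hp1 : p1 ≤ 2932)
    (hp2 : p2 ^ 2 = 316976) (hp20 : 0 ≤ p2) (hp3 : p3 ^ 3 = 12700160) (hp30 : 0 ≤ p3)
    (hx1 : x1 = 3199 / 3200 * c1 + 1 / 3200 * p1) (hx2 : x2 = 3199 / 3200 * c2 + 1 / 3200 * p2)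
    (hx3 : x3 = 3199 / 3200 * c3 + 1 / 3200 * p3) :
    x1 < 12.913 ∧ 6.8888 < x2 ^ 2 ∧ x2 ^ 2 < 6.88887 ∧ 1.23397 < x3 ^ 3 := by
  have a1 : 2.44948 ≤ c2 := by nlinarith only [hc2, hc20]
  have a2 : c2 ≤ 2.44949 := by nlinarith only [hc2, hc20, a1]
  have a3 : 1 ≤ c3 := by
    by_contra h
    push Not at h
    have := pow_lt_one₀ hc30 h (n := 3) (by norm_num)
    linarith only [hc3, this]
  have a4 : 563.006 ≤ p2 := by nlinarith only [hp2, hp20]
  have a5 : p2 ≤ 563.0063 := by nlinarith only [hp2, hp20]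
  have a6 : 233.311 ≤ p3 := by
    by_contra h
    push Not at h
    have := pow_lt_pow_left₀ h hp30 (n := 3) (by norm_num)
    norm_num at this
    linarith only [hp3, this]
  have b1 : x1 ≤ 12.9125 := by rw [hx1]; linarith only [hc1, hp1]
  have b2 : 2.6246539 ≤ x2 := by rw [hx2]; linarith only [a1, a4]
  have b3 : x2 ≤ 2.6246641 := by rw [hx2]; linarith only [a2, a5]
  have b4 : 1.0725971 ≤ x3 := by rw [hx3]; linarith only [a3, a6]
  have b5 : x2 ^ 2 ≤ 2.6246641 ^ 2 := by gcongr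
  have b6 : (1.0725971 : ℝ) ^ 3 ≤ x3 ^ 3 := by gcongr
  have b7 : (2.6246539 : ℝ) ^ 2 ≤ x2 ^ 2 := by gcongr
  norm_num at b5 b6 b7 ⊢
  refine ⟨by linarith only [hc1, hp1, hx1], by linarith only [b7], by linarith only [b5], by linarith only [b6]⟩

/-- The case `d = 3`. -/
theorem result_three : ¬ Convex ℝ {x : Fin 3 → ℝ |
    ∃ K : Set (EuclideanSpace ℝ (Fin 3)), InClass K ∧ IsZetaVec K x} := by
  intro hconv
  obtain ⟨K, hK, hx⟩ := hconv
    (x := vecBody (PP cuU cuH)) ⟨_, inClass_PP rep_cube, isZetaVec_PP rep_cube⟩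
    (y := vecBody (PP prU prH)) ⟨_, inClass_PP rep_prism, isZetaVec_PP rep_prism⟩
    (a := 3199 / 3200) (b := 1 / 3200) (by norm_num) (by norm_num) (by norm_num)
  set p := vecBody (PP cuU cuH) with hp
  set q := vecBody (PP prU prH) with hq
  set x : Fin 3 → ℝ := (3199 / 3200 : ℝ) • p + (1 / 3200 : ℝ) • q with hxdef
  have hxi : ∀ i, x i = 3199 / 3200 * p i + 1 / 3200 * q i := fun i => rfl
  obtain ⟨c1, c2, c3⟩ := contentBody_PP rep_cube
  obtain ⟨d1, d2, d3⟩ := contentBody_PP rep_prism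
  rw [cube_zeta_two] at c2
  rw [cube_zeta_three] at c3
  rw [prism_zeta_two] at d2
  rw [prism_zeta_three] at d3
  have c1' := c1.trans cube_zeta_one
  have d1' := d1.trans prism_zeta_one
  obtain ⟨n1, n2, n3, n4⟩ := numeric2 (c1 := p 0) (c2 := p 1) (c3 := p 2) (p1 := q 0) (p2 := q 1)
    (p3 := q 2) (x1 := x 0) (x2 := x 1) (x3 := x 2)
    (by
      have h := vecBody_pow (K := PP cuU cuH) (k := 0) (by norm_num)
      rw [zero_add, pow_one] at h
      have h2 := ENNReal.toReal_mono (by norm_num) c1'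
      rw [← h] at h2
      simpa using h2)
    (by
      have h := vecBody_pow (K := PP cuU cuH) (k := 1) (by norm_num)
      norm_num at h
      rw [c2] at h
      simpa using h)
    (vecBody_nonneg _ _)
    (by
      have h := vecBody_pow (K := PP cuU cuH) (k := 2) (by norm_num)
      norm_num at h
      rw [c3] at h
      simpa using h)
    (vecBody_nonneg _ _)
    (by
      have h := vecBody_pow (K := PP prU prH) (k := 0) (by norm_num)
      rw [zero_add, pow_one] at h
      have h2 := ENNReal.toReal_mono (by norm_num) d1'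
      rw [← h] at h2
      simpa using h2)
    (by
      have h := vecBody_pow (K := PP prU prH) (k := 1) (by norm_num)
      norm_num at h
      rw [d2] at h
      simpa using h)
    (vecBody_nonneg _ _)
    (by
      have h := vecBody_pow (K := PP prU prH) (k := 2) (by norm_num)
      norm_num at h
      rw [d3] at h
      simpa using h)
    (vecBody_nonneg _ _) (hxi 0) (hxi 1) (hxi 2)
  have e1 := contentBody_eq hx (k := 0) (by norm_num)
  have e2 := contentBody_eq hx (k := 1) (by norm_num)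
  have e3 := contentBody_eq hx (k := 2) (by norm_num)
  norm_num at e1 e2 e3
  have f2 : contentBody 2 K < ENNReal.ofReal 6.88887 := by
    rw [e2]
    exact (ENNReal.ofReal_lt_ofReal_iff (by norm_num)).2 n3
  obtain ⟨δ, hδ, hsurf⟩ := surface_upper hK.2.2.1 f2
  obtain ⟨I, hbd, hint, hnear, g1, g2, g3⟩ := approx3 (K := K) (k := 1) (k' := 2) (k'' := 3)
    (a := ENNReal.ofReal 6.8888) (a' := ENNReal.ofReal 1.23397) (b := ENNReal.ofReal 12.913)
    (by
      rw [e2]
      exact (ENNReal.ofReal_lt_ofReal_iff (by linarith only [n2, n3])).2 n2)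
    (by
      rw [e3]
      exact (ENNReal.ofReal_lt_ofReal_iff (lt_trans (by norm_num) n4)).2 n4)
    (by
      rw [e1]
      exact (ENNReal.ofReal_lt_ofReal_iff (by norm_num)).2 n1) hδ
  have g4 := hsurf I hbd hnear
  have hV : (Helper75.zeta 3 (Helper75.poly I)) = volume (Helper75.poly I) := by
    have h2 := Helper75.zeta_top I hint
    rw [finrank_euclideanSpace, Fintype.card_fin] at h2
    exact h2
  have hVtop : Helper75.zeta 3 (Helper75.poly I) ≠ ⊤ := by
    rw [hV]; exact hbd.measure_lt_top.ne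
  have r1 : (Helper75.zeta 1 (Helper75.poly I)).toReal ≤ 12.913 := by
    have := ENNReal.toReal_mono ENNReal.ofReal_ne_top g1.le
    rwa [ENNReal.toReal_ofReal (by norm_num)] at this
  have r2 : (Helper75.zeta 2 (Helper75.poly I)).toReal ≤ 6.88887 := by
    have := ENNReal.toReal_mono ENNReal.ofReal_ne_top g4
    rwa [ENNReal.toReal_ofReal (by norm_num)] at this
  have r3 : 6.8888 ≤ (Helper75.zeta 2 (Helper75.poly I)).toReal := by
    have := ENNReal.toReal_mono (g4.trans_lt ENNReal.ofReal_lt_top).ne g2.le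
    rwa [ENNReal.toReal_ofReal (by norm_num)] at this
  have r4 : 1.23397 ≤ (volume (Helper75.poly I)).toReal := by
    have := ENNReal.toReal_mono hVtop g3.le
    rwa [ENNReal.toReal_ofReal (by norm_num), hV] at this
  set S := (Helper75.zeta 2 (Helper75.poly I)).toReal with hS
  set V := (volume (Helper75.poly I)).toReal with hVdef
  have s1 : S ^ 3 ≤ 6.88887 ^ 3 := by gcongr
  have s2 : (1.23397 : ℝ) ^ 2 ≤ V ^ 2 := by gcongr
  have hedge := edge_ge_poly hbd hint (by
    rw [← hS, ← hVdef]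
    norm_num at s1 s2 ⊢
    linarith only [n2, n3, s1, s2])
  rw [← hS] at hedge
  have s3 : 2.62465 ≤ √S := by
    apply Real.le_sqrt_of_sq_le
    norm_num at r3 ⊢
    linarith only [n2, n3, r3]
  linarith only [n2, n3, r1, hedge, s3]

end Three

/-- For every `d ≥ 3` the set `ζ(𝒞₁ᵈ)` is not convex. -/
theorem result (d : ℕ) (hd : 3 ≤ d) :
    ¬ Convex ℝ {x : Fin d → ℝ |
      ∃ K : Set (EuclideanSpace ℝ (Fin d)), InClass K ∧ IsZetaVec K x} := by
  rcases hd.eq_or_lt with h | h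
  · subst h
    exact result_three
  · exact result_four d h

end Pool.Agent.Results.MP_86df06_gt.BodiesNeverConvex
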