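import Pool.Agent.Helper75.Main
import Pool.Agent.Helper75.VRep
import Pool.Agent.Helper65.PK.Three

/-!
The cone of `k`-content vectors of `d`-polytopes is not convex, for every `d ≥ 3`.
-/

open MeasureTheory Module Set
open scoped ENNReal RealInnerProductSpace

namespace Pool.Agent.Results.MP_86df06_gt.PolytopesNeverConvex

/-- A `d`-polytope: the convex hull of finitely many points of `ℝᵈ`, with nonempty interior. -/
def IsDPolytope {d : ℕ} (P : Set (EuclideanSpace ℝ (Fin d))) : Prop :=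
  (∃ S : Finset (EuclideanSpace ℝ (Fin d)),
    P = convexHull ℝ (S : Set (EuclideanSpace ℝ (Fin d)))) ∧ (interior P).Nonempty

/-- `F` is a `k`-dimensional face of `P`: a nonempty set of maximisers over `P` of a linear
functional (the zero functional gives `P` itself), whose affine span has dimension `k`. -/
def IsKFace {d : ℕ} (k : ℕ) (P F : Set (EuclideanSpace ℝ (Fin d))) : Prop :=
  IsExposed ℝ P F ∧ F.Nonempty ∧ finrank ℝ (vectorSpan ℝ F) = k

/-- The `k`-content of `P`: the sum over the `k`-dimensional faces of their `k`-volumes. -/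
noncomputable def content {d : ℕ} (k : ℕ) (P : Set (EuclideanSpace ℝ (Fin d))) : ℝ≥0∞ :=
  ∑' F : {F : Set (EuclideanSpace ℝ (Fin d)) // IsKFace k P F},
    μHE[k] (F : Set (EuclideanSpace ℝ (Fin d)))

/-- The `ζ`-vector: its `k`-th coordinate is the `k`-th root of the `k`-content, `1 ≤ k ≤ d`
(the coordinate with index `i : Fin d` is the one with `k = i + 1`). -/
noncomputable def zetaVec {d : ℕ} (P : Set (EuclideanSpace ℝ (Fin d))) : Fin d → ℝ :=
  fun i => (content ((i : ℕ) + 1) P).toReal ^ (1 / (((i : ℕ) : ℝ) + 1))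

theorem isKFace_poly_iff {d : ℕ} (k : ℕ) (I : Finset (EuclideanSpace ℝ (Fin d) × ℝ))
    (F : Set (EuclideanSpace ℝ (Fin d))) :
    IsKFace k (Helper75.poly I) F ↔ F ∈ Helper75.kfaces k (Helper75.poly I) := by
  constructor
  · rintro ⟨hexp, hne, hk⟩
    obtain ⟨l, hl⟩ := hexp hne
    refine ⟨?_, hk⟩
    apply Helper75.exposed_mem_faces (a := (InnerProductSpace.toDual ℝ _).symm l) _ hne
    simp only [InnerProductSpace.toDual_symm_apply]
    exact hl
  · rintro ⟨hF, hk⟩
    refine ⟨fun _ => ?_, ?_, hk⟩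
    · obtain ⟨a, ha⟩ := Helper75.exists_exposed_of_mem_faces hF
      exact ⟨innerSL ℝ a, by simpa using ha⟩
    · obtain ⟨x, hx, rfl⟩ := hF
      exact ⟨x, Helper75.self_mem_mface hx⟩

theorem content_poly {d : ℕ} (k : ℕ) (I : Finset (EuclideanSpace ℝ (Fin d) × ℝ)) :
    content k (Helper75.poly I) = Helper75.zeta k (Helper75.poly I) := by
  unfold content Helper75.zeta
  have h : {F | IsKFace k (Helper75.poly I) F} = Helper75.kfaces k (Helper75.poly I) := by
    ext F
    exact isKFace_poly_iff k I F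
  exact congrArg (fun s : Set (Set (EuclideanSpace ℝ (Fin d))) =>
    ∑' F : s, μHE[k] (F : Set (EuclideanSpace ℝ (Fin d)))) h

theorem zetaVec_poly {d : ℕ} (i : Fin d) (I : Finset (EuclideanSpace ℝ (Fin d) × ℝ)) :
    zetaVec (Helper75.poly I) i = Helper75.X ((i : ℕ) + 1) (Helper75.poly I) := by
  unfold zetaVec Helper75.X
  rw [content_poly, one_div]
  push_cast
  rfl

theorem isDPolytope_box {d : ℕ} {ℓ : Fin d → ℝ} (h0 : ∀ i, 0 < ℓ i) (h1 : ∀ i, ℓ i ≤ 1) :
    IsDPolytope (Helper75.poly (Helper75.boxI ℓ)) :=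
  ⟨Helper75.exists_convexHull_of_poly
    (Helper75.isBounded_of_norm_sub_le (Helper75.box_diam h1)),
    Helper75.interior_box_nonempty h0⟩

/-- The case `d ≥ 4`. -/
theorem result_four (d : ℕ) (hd : 4 ≤ d) :
    ¬ Convex ℝ {x : Fin d → ℝ |
      ∃ P : Set (EuclideanSpace ℝ (Fin d)), IsDPolytope P ∧ x = zetaVec P} := by
  intro hconv
  obtain ⟨m, rfl⟩ : ∃ m, d = m + 4 := ⟨d - 4, by omega⟩
  obtain ⟨t, ε, ht0, ht1, hε0, hε1, hno⟩ := Helper75.no_combination m
  have hP : zetaVec (Helper75.poly (Helper75.boxI (Helper75.thin m ε))) ∈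
      {x : Fin (m + 4) → ℝ | ∃ P : Set (EuclideanSpace ℝ (Fin (m + 4))),
        IsDPolytope P ∧ x = zetaVec P} :=
    ⟨_, isDPolytope_box (Helper75.thin_pos hε0) (Helper75.thin_le hε1), rfl⟩
  have hQ : zetaVec (Helper75.poly (Helper75.boxI fun _ : Fin (m + 4) => (1 : ℝ))) ∈
      {x : Fin (m + 4) → ℝ | ∃ P : Set (EuclideanSpace ℝ (Fin (m + 4))),
        IsDPolytope P ∧ x = zetaVec P} :=
    ⟨_, isDPolytope_box (fun _ => one_pos) (fun _ => le_rfl), rfl⟩
  obtain ⟨R, ⟨⟨S, hS⟩, hint⟩, hR⟩ := hconv hP hQ (a := 1 - t) (b := t) (by linarith) ht0.le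
    (by ring)
  obtain ⟨I, hI⟩ := Helper75.exists_poly_of_convexHull (S := S) (by rw [← hS]; exact hint)
  have hRI : R = Helper75.poly I := hS.trans hI
  subst hRI
  have hbd : Bornology.IsBounded (Helper75.poly I) := by
    rw [← hI]
    exact (S.finite_toSet.isCompact_convexHull ℝ).isBounded
  refine hno I hbd hint fun k hk1 hk2 => ?_
  have hlt : k - 1 < m + 4 := by omega
  have h := congrFun hR ⟨k - 1, hlt⟩
  have hk : k - 1 + 1 = k := by omega
  simp only [Pi.add_apply, Pi.smul_apply, smul_eq_mul, zetaVec_poly, hk] at h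
  exact h.symm

theorem isDPolytope_PP {ι : Type} [Fintype ι] {u : ι → Helper65.PK.E3} {h : ι → ℝ}
    (R : Helper65.PK.Rep u h) : IsDPolytope (Helper65.PK.PP u h) := by
  have h1 := R.bdd
  refine ⟨?_, R.int⟩
  rw [Helper65.PK.PP_eq_poly] at h1 ⊢
  exact Helper75.exists_convexHull_of_poly h1

theorem zetaVec_PP {ι : Type} [Fintype ι] (u : ι → Helper65.PK.E3) (h : ι → ℝ) (i : Fin 3) :
    zetaVec (Helper65.PK.PP u h) i = Helper75.X ((i : ℕ) + 1) (Helper65.PK.PP u h) := by
  rw [Helper65.PK.PP_eq_poly]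
  exact zetaVec_poly i _

/-- The case `d = 3`. -/
theorem result_three : ¬ Convex ℝ {x : Fin 3 → ℝ |
    ∃ P : Set (EuclideanSpace ℝ (Fin 3)), IsDPolytope P ∧ x = zetaVec P} := by
  intro hconv
  obtain ⟨R, ⟨⟨S, hS⟩, hint⟩, hR⟩ := hconv
    (x := zetaVec (Helper65.PK.PP Helper65.PK.cuU Helper65.PK.cuH))
    ⟨_, isDPolytope_PP Helper65.PK.rep_cube, rfl⟩
    (y := zetaVec (Helper65.PK.PP Helper65.PK.prU Helper65.PK.prH))
    ⟨_, isDPolytope_PP Helper65.PK.rep_prism, rfl⟩
    (a := 3199 / 3200) (b := 1 / 3200) (by norm_num) (by norm_num) (by norm_num)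
  obtain ⟨I, hI⟩ := Helper75.exists_poly_of_convexHull (S := S) (by rw [← hS]; exact hint)
  have hRI : R = Helper75.poly I := hS.trans hI
  subst hRI
  have hbd : Bornology.IsBounded (Helper75.poly I) := by
    rw [← hI]
    exact (S.finite_toSet.isCompact_convexHull ℝ).isBounded
  refine Helper65.PK.no_combination_three hbd hint fun k hk => ?_
  have h := congrFun hR ⟨k, hk⟩
  simp only [Pi.add_apply, Pi.smul_apply, smul_eq_mul, zetaVec_poly, zetaVec_PP] at h
  exact h.symm

/-- For every `d ≥ 3` the set `ζ(𝒫ᵈ)` of all `ζ`-vectors of `d`-polytopes is not convex. -/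
theorem result (d : ℕ) (hd : 3 ≤ d) :
    ¬ Convex ℝ {x : Fin d → ℝ |
      ∃ P : Set (EuclideanSpace ℝ (Fin d)), IsDPolytope P ∧ x = zetaVec P} := by
  rcases hd.eq_or_lt with h | h
  · subst h
    exact result_three
  · exact result_four d h

end Pool.Agent.Results.MP_86df06_gt.PolytopesNeverConvex
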